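import Pool.Agent.H70.QR.Stm

/-! TEL: random blow-ups weighted by the pairs. -/

set_option autoImplicit false
set_option linter.unusedSectionVars false
open Finset

namespace Pool.Agent.H70.QR.TEL

open Pool.Agent.H70.RC Pool.Agent.H70.QR

section bilin

variable {V : Type} [Fintype V]

theorem ext_pt (c A : V → ℝ) {α : ℝ} (hA0 : ∀ u, 0 ≤ A u) (hA : ∀ u, A u ≤ α) :
    ∃ S : Finset V, ∑ u, c u * A u ≤ α * ∑ u ∈ S, c u := by
  classical
  refine ⟨univ.filter (fun u => 0 < c u), ?_⟩
  rw [sum_filter, mul_sum]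
  refine sum_le_sum fun u _ => ?_
  split_ifs with h
  · rw [mul_comm]; exact mul_le_mul_of_nonneg_right (hA u) h.le
  · have : c u * A u ≤ 0 := mul_nonpos_of_nonpos_of_nonneg (not_lt.mp h) (hA0 u)
    simpa using this

theorem bilin_up {K : V → V → ℝ} {δ : ℝ} (hC : Cut K δ) {A B : V → ℝ} {α β : ℝ} (hα : 0 ≤ α)
    (hβ : 0 ≤ β) (hA0 : ∀ u, 0 ≤ A u) (hA : ∀ u, A u ≤ α) (hB0 : ∀ u, 0 ≤ B u)
    (hB : ∀ u, B u ≤ β) :
    ∑ u, ∑ v, K u v * (A u * B v) ≤ α * β * (δ * (Fintype.card V : ℝ) ^ 2) := by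
  obtain ⟨S, hS⟩ := ext_pt (fun u => ∑ v, K u v * B v) A hA0 hA
  obtain ⟨T, hT⟩ := ext_pt (fun v => ∑ u ∈ S, K u v) B hB0 hB
  calc ∑ u, ∑ v, K u v * (A u * B v) = ∑ u, (∑ v, K u v * B v) * A u := by
        refine sum_congr rfl fun u _ => ?_
        rw [sum_mul]
        exact sum_congr rfl fun v _ => by ring
    _ ≤ α * ∑ u ∈ S, ∑ v, K u v * B v := hS
    _ = α * ∑ v, (∑ u ∈ S, K u v) * B v := by
        rw [sum_comm]
        congr 1
        refine sum_congr rfl fun v _ => ?_
        rw [sum_mul]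
    _ ≤ α * (β * ∑ v ∈ T, ∑ u ∈ S, K u v) := mul_le_mul_of_nonneg_left hT hα
    _ ≤ α * (β * (δ * (Fintype.card V : ℝ) ^ 2)) := by
        refine mul_le_mul_of_nonneg_left (mul_le_mul_of_nonneg_left ?_ hβ) hα
        rw [sum_comm]
        exact (le_abs_self _).trans (hC S T)
    _ = _ := by ring

theorem cut_neg {K : V → V → ℝ} {δ : ℝ} (hC : Cut K δ) : Cut (fun x y => - K x y) δ := by
  intro A B
  simp only [sum_neg_distrib, abs_neg]
  exact hC A B

theorem bilin {K : V → V → ℝ} {δ : ℝ} (hC : Cut K δ) {A B : V → ℝ} {α β : ℝ} (hα : 0 ≤ α)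
    (hβ : 0 ≤ β) (hA0 : ∀ u, 0 ≤ A u) (hA : ∀ u, A u ≤ α) (hB0 : ∀ u, 0 ≤ B u)
    (hB : ∀ u, B u ≤ β) :
    |∑ u, ∑ v, K u v * (A u * B v)| ≤ α * β * (δ * (Fintype.card V : ℝ) ^ 2) := by
  rw [abs_le]
  constructor
  · have h := bilin_up (cut_neg hC) hα hβ hA0 hA hB0 hB
    simp only [neg_mul, sum_neg_distrib] at h
    linarith
  · exact bilin_up hC hα hβ hA0 hA hB0 hB

theorem av_bilin [Nonempty V] {K : V → V → ℝ} {δ : ℝ} (hC : Cut K δ) {A B : V → ℝ} {α β : ℝ}
    (hα : 0 ≤ α) (hβ : 0 ≤ β) (hA0 : ∀ u, 0 ≤ A u) (hA : ∀ u, A u ≤ α) (hB0 : ∀ u, 0 ≤ B u)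
    (hB : ∀ u, B u ≤ β) :
    |av fun u => av fun v => K u v * (A u * B v)| ≤ α * β * δ := by
  have hN : (0 : ℝ) < Fintype.card V := by exact_mod_cast Fintype.card_pos
  have h := bilin hC hα hβ hA0 hA hB0 hB
  have e : (av fun u => av fun v => K u v * (A u * B v)) =
      (∑ u, ∑ v, K u v * (A u * B v)) / (Fintype.card V : ℝ) ^ 2 := by
    unfold av
    rw [← sum_div, div_div, sq]
  rw [e, abs_div, abs_of_pos (by positivity : (0 : ℝ) < (Fintype.card V : ℝ) ^ 2),
    div_le_iff₀ (by positivity)]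
  calc _ ≤ _ := h
    _ = _ := by ring

end bilin

section W

variable {ι V : Type} [Fintype ι] [DecidableEq ι] [Fintype V] [Nonempty V]

/-- value of a symmetric function on an unordered pair of indices -/
def ev (f : V → V → ℝ) (hf : ∀ x y, f x y = f y x) (x : ι → V) : Sym2 ι → ℝ :=
  Sym2.lift ⟨fun a b => f (x a) (x b), fun a b => hf _ _⟩

theorem ev_mk (f : V → V → ℝ) (hf : ∀ x y, f x y = f y x) (x : ι → V) (a b : ι) :
    ev f hf x s(a, b) = f (x a) (x b) := rfl

/-- product over a set of pairs -/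
def Wt (f : V → V → ℝ) (hf : ∀ x y, f x y = f y x) (P : Finset (Sym2 ι)) (x : ι → V) : ℝ :=
  ∏ e ∈ P, ev f hf x e

variable {f : V → V → ℝ} {hf : ∀ x y, f x y = f y x}

theorem ev_nonneg (h0 : ∀ x y, 0 ≤ f x y) (x : ι → V) (e : Sym2 ι) : 0 ≤ ev f hf x e := by
  induction e using Sym2.ind with
  | _ a b => rw [ev_mk]; exact h0 _ _

theorem ev_le (h2 : ∀ x y, f x y ≤ 2) (x : ι → V) (e : Sym2 ι) : ev f hf x e ≤ 2 := by
  induction e using Sym2.ind with
  | _ a b => rw [ev_mk]; exact h2 _ _

theorem ev_congr (x y : ι → V) (e : Sym2 ι) (h : ∀ a ∈ e, x a = y a) :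
    ev f hf x e = ev f hf y e := by
  induction e using Sym2.ind with
  | _ a b => rw [ev_mk, ev_mk, h a (by simp), h b (by simp)]

theorem Wt_nonneg (h0 : ∀ x y, 0 ≤ f x y) (P : Finset (Sym2 ι)) (x : ι → V) :
    0 ≤ Wt f hf P x := prod_nonneg fun e _ => ev_nonneg h0 x e

theorem Wt_le (h0 : ∀ x y, 0 ≤ f x y) (h2 : ∀ x y, f x y ≤ 2) (P : Finset (Sym2 ι)) (x : ι → V) :
    Wt f hf P x ≤ 2 ^ P.card := by
  unfold Wt
  rw [← prod_const]
  exact prod_le_prod (fun e _ => ev_nonneg h0 x e) fun e _ => ev_le h2 x e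

theorem Wt_congr (x y : ι → V) (P : Finset (Sym2 ι)) (h : ∀ e ∈ P, ∀ a ∈ e, x a = y a) :
    Wt f hf P x = Wt f hf P y :=
  prod_congr rfl fun e he => ev_congr x y e (h e he)

theorem key' (h0 : ∀ x y, 0 ≤ f x y) (h2 : ∀ x y, f x y ≤ 2) {K : V → V → ℝ} {δ : ℝ}
    (hδ : 0 ≤ δ) (hC : Cut K δ) {g : (ι → V) → ℝ} (hg0 : ∀ x, 0 ≤ g x) (hg1 : ∀ x, g x ≤ 1)
    {a b : ι} (hab : a ≠ b) {P : Finset (Sym2 ι)} (hP : s(a, b) ∉ P)
    (hdep : ∀ x u, g (Function.update x a u) = g x) :
    |av fun x => K (x a) (x b) * (g x * Wt f hf P x)| ≤ 2 ^ P.card * δ := by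
  classical
  rw [av_resample b]
  have e1 : (av fun γ : ι → V => av fun v => K (Function.update γ b v a) (Function.update γ b v b) *
      (g (Function.update γ b v) * Wt f hf P (Function.update γ b v))) =
      av fun γ : ι → V => av fun u => av fun v =>
        K u v * (Wt f hf (P.filter (fun e => a ∈ e)) (Function.update γ a u) *
          (g (Function.update γ b v) *
            Wt f hf (P.filter (fun e => ¬ a ∈ e)) (Function.update γ b v))) := by
    rw [av_resample a]
    refine av_congr fun γ => av_congr fun u => av_congr fun v => ?_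
    have hcomm : Function.update (Function.update γ a u) b v =
        Function.update (Function.update γ b v) a u := Function.update_comm hab _ _ _
    rw [hcomm, Function.update_self, hdep, Function.update_of_ne hab.symm, Function.update_self]
    have hsplit : Wt f hf P (Function.update (Function.update γ b v) a u) =
        Wt f hf (P.filter (fun e => a ∈ e)) (Function.update γ a u) *
          Wt f hf (P.filter (fun e => ¬ a ∈ e)) (Function.update γ b v) := by
      have h1 : Wt f hf P (Function.update (Function.update γ b v) a u) =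
          Wt f hf (P.filter (fun e => a ∈ e)) (Function.update (Function.update γ b v) a u) *
          Wt f hf (P.filter (fun e => ¬ a ∈ e)) (Function.update (Function.update γ b v) a u) := by
        unfold Wt
        exact (prod_filter_mul_prod_filter_not P _ _).symm
      rw [h1]
      congr 1
      · refine Wt_congr _ _ _ fun e he c hce => ?_
        rw [mem_filter] at he
        by_cases hca : c = a
        · subst hca; rw [Function.update_self, Function.update_self]
        · rw [Function.update_of_ne hca, Function.update_of_ne hca]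
          by_cases hcb : c = b
          · exfalso
            subst hcb
            apply hP
            have : e = s(a, c) := (Sym2.mem_and_mem_iff hab).mp ⟨he.2, hce⟩
            rw [← this]; exact he.1
          · rw [Function.update_of_ne hcb]
      · refine Wt_congr _ _ _ fun e he c hce => ?_
        rw [mem_filter] at he
        have hca : c ≠ a := by
          intro h; subst h; exact he.2 hce
        rw [Function.update_of_ne hca]
    rw [hsplit]
    ring
  rw [e1]
  refine (abs_av_le _).trans ?_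
  refine av_le_of_le fun γ => ?_
  refine (av_bilin hC (α := 2 ^ (P.filter (fun e => a ∈ e)).card)
    (β := 2 ^ (P.filter (fun e => ¬ a ∈ e)).card) (by positivity) (by positivity)
    (fun u => Wt_nonneg h0 _ _) (fun u => Wt_le h0 h2 _ _)
    (fun v => mul_nonneg (hg0 _) (Wt_nonneg h0 _ _)) (fun v => ?_)).trans ?_
  · calc _ ≤ 1 * (2 : ℝ) ^ (P.filter (fun e => ¬ a ∈ e)).card :=
        mul_le_mul (hg1 _) (Wt_le h0 h2 _ _) (Wt_nonneg h0 _ _) zero_le_one
      _ = _ := one_mul _
  · rw [← pow_add, card_filter_add_card_filter_not]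

theorem key (h0 : ∀ x y, 0 ≤ f x y) (h2 : ∀ x y, f x y ≤ 2) {K : V → V → ℝ} {δ : ℝ}
    (hK : ∀ x y, K x y = K y x)
    (hδ : 0 ≤ δ) (hC : Cut K δ) {g : (ι → V) → ℝ} (hg0 : ∀ x, 0 ≤ g x) (hg1 : ∀ x, g x ≤ 1)
    {a b : ι} (hab : a ≠ b) {P : Finset (Sym2 ι)} (hP : s(a, b) ∉ P)
    (hdep : (∀ x u, g (Function.update x a u) = g x) ∨ (∀ x u, g (Function.update x b u) = g x)) :
    |av fun x => K (x a) (x b) * (g x * Wt f hf P x)| ≤ 2 ^ P.card * δ := by
  rcases hdep with h | h
  · exact key' h0 h2 hδ hC hg0 hg1 hab hP h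
  · have := key' (f := f) (hf := hf) h0 h2 hδ hC hg0 hg1 hab.symm (P := P)
      (by rw [Sym2.eq_swap]; exact hP) h
    have e : (fun x : ι → V => K (x a) (x b) * (g x * Wt f hf P x)) =
        fun x => K (x b) (x a) * (g x * Wt f hf P x) := by
      funext x; rw [hK (x a) (x b)]
    rw [e]
    exact this

theorem Wt_insert {P : Finset (Sym2 ι)} {a b : ι} (hP : s(a, b) ∉ P) (x : ι → V) :
    Wt f hf (insert s(a, b) P) x = f (x a) (x b) * Wt f hf P x := by
  unfold Wt
  rw [prod_insert hP, ev_mk]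

theorem Wt_empty (x : ι → V) : Wt f hf (∅ : Finset (Sym2 ι)) x = 1 := by
  unfold Wt; exact prod_empty

end W

section main

variable {ι V : Type} [Fintype ι] [DecidableEq ι] [Fintype V] [Nonempty V]

theorem wsymm {φ : V → V → ℝ} (hφ : ∀ x y, φ x y = φ y x) (s : ℝ) (x y : V) :
    1 + s * φ x y = 1 + s * φ y x := by rw [hφ]

theorem remove {φ : V → V → ℝ} (hφ : ∀ x y, φ x y = φ y x) (h1 : ∀ x y, |φ x y| ≤ 1) {δ : ℝ}
    (hδ : 0 ≤ δ) (hC : Cut φ δ) {s : ℝ} (hs0 : 0 ≤ s) (hs1 : s ≤ 1) {g : (ι → V) → ℝ}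
    (hg0 : ∀ x, 0 ≤ g x) (hg1 : ∀ x, g x ≤ 1) {N : ℕ} (hN : Fintype.card (Sym2 ι) ≤ N)
    (P : Finset (Sym2 ι)) (R : Finset (Sym2 ι)) (hd : Disjoint R P)
    (hR : ∀ e ∈ R, ¬ e.IsDiag ∧ ∃ a ∈ e, ∀ x u, g (Function.update x a u) = g x) :
    |(av fun x : ι → V => g x * Wt (fun x y => 1 + s * φ x y) (wsymm hφ s) (R ∪ P) x) -
      av fun x : ι → V => g x * Wt (fun x y => 1 + s * φ x y) (wsymm hφ s) P x| ≤
      R.card * (2 ^ N * δ) := by
  induction R using Finset.induction_on with
  | empty => simp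
  | insert e R he ih =>
    have hd' : Disjoint R P := hd.mono_left (subset_insert _ _)
    have ih' := ih hd' fun e he => hR e (mem_insert_of_mem he)
    obtain ⟨hdiag, c, hce, hc⟩ := hR e (mem_insert_self _ _)
    have heP : e ∉ R ∪ P := by
      rw [mem_union]
      rintro (h | h)
      · exact he h
      · exact (Finset.disjoint_left.mp hd) (mem_insert_self _ _) h
    obtain ⟨d, rfl⟩ := Sym2.mem_iff_exists.mp hce
    have hcd : c ≠ d := by
      intro h; exact hdiag (by rw [h]; exact Sym2.mk_isDiag_iff.mpr rfl)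
    have hf0 : ∀ x y, 0 ≤ 1 + s * φ x y := by
      intro x y
      have h2 := abs_le.mp (h1 x y)
      nlinarith
    have hf2 : ∀ x y, 1 + s * φ x y ≤ 2 := by
      intro x y
      have h2 := abs_le.mp (h1 x y)
      nlinarith
    have hk := key (f := fun x y => 1 + s * φ x y) (hf := wsymm hφ s) hf0 hf2 hφ hδ hC hg0 hg1 hcd
      heP (Or.inl hc)
    have hcard : (R ∪ P).card ≤ N := (card_le_univ _).trans hN
    have hpow : (2 : ℝ) ^ (R ∪ P).card * δ ≤ 2 ^ N * δ :=
      mul_le_mul_of_nonneg_right (pow_le_pow_right₀ (by norm_num) hcard) hδ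
    have e1 : (av fun x : ι → V => g x *
        Wt (fun x y => 1 + s * φ x y) (wsymm hφ s) (insert s(c, d) R ∪ P) x) =
        (av fun x : ι → V => g x * Wt (fun x y => 1 + s * φ x y) (wsymm hφ s) (R ∪ P) x) +
        s * av fun x : ι → V => φ (x c) (x d) *
          (g x * Wt (fun x y => 1 + s * φ x y) (wsymm hφ s) (R ∪ P) x) := by
      rw [← av_mul_left, ← av_add]
      refine av_congr fun x => ?_
      rw [insert_union, Wt_insert heP]
      ring
    rw [e1, card_insert_of_notMem he]
    have e2 : s * |av fun x : ι → V => φ (x c) (x d) *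
          (g x * Wt (fun x y => 1 + s * φ x y) (wsymm hφ s) (R ∪ P) x)| ≤ 2 ^ N * δ := by
      have h5 := hk.trans hpow
      have h6 := abs_nonneg (av fun x : ι → V => φ (x c) (x d) *
          (g x * Wt (fun x y => 1 + s * φ x y) (wsymm hφ s) (R ∪ P) x))
      nlinarith
    set A1 := av fun x : ι → V => g x * Wt (fun x y => 1 + s * φ x y) (wsymm hφ s) (R ∪ P) x
    set A2 := av fun x : ι → V => φ (x c) (x d) *
          (g x * Wt (fun x y => 1 + s * φ x y) (wsymm hφ s) (R ∪ P) x)
    set A3 := av fun x : ι → V => g x * Wt (fun x y => 1 + s * φ x y) (wsymm hφ s) P x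
    have e3 : |A1 + s * A2 - A3| ≤ |A1 - A3| + |s * A2| := by
      have : A1 + s * A2 - A3 = (A1 - A3) + s * A2 := by ring
      rw [this]; exact abs_add_le _ _
    rw [abs_mul, abs_of_nonneg hs0] at e3
    push_cast
    linarith

theorem card_sym2 (n : ℕ) (hn : 3 ≤ n) : Fintype.card (Sym2 (Fin n)) ≤ n ^ 2 := by
  rw [Sym2.card, Fintype.card_fin, Nat.choose_two_right, Nat.add_sub_cancel]
  have : (n + 1) * n ≤ 2 * n ^ 2 := by nlinarith
  omega

theorem tel : S_TEL := by
  intro V _ _ χ hχ n M hn hM hBd φ hφ h1 δ hδ hC s hs0 hs1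
  classical
  set P0 : Finset (Sym2 (Fin n)) := univ.filter (fun e => ¬ e.IsDiag) with hP0
  set ε : ℝ := n ^ 2 * 2 ^ (n ^ 2) * δ with hε
  have hf0 : ∀ x y, 0 ≤ 1 + s * φ x y := by
    intro x y
    have h2 := abs_le.mp (h1 x y)
    nlinarith
  have hcardle : ∀ R : Finset (Sym2 (Fin n)), (R.card : ℝ) * (2 ^ (n ^ 2) * δ) ≤ ε := by
    intro R
    have h2 : (R.card : ℝ) ≤ (n : ℝ) ^ 2 := by
      exact_mod_cast (card_le_univ R).trans (card_sym2 n hn)
    rw [hε, mul_assoc]
    exact mul_le_mul_of_nonneg_right h2 (by positivity)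
  set w : Finset (Sym2 (Fin n)) → (Fin n → V) → ℝ :=
    fun P x => Wt (fun x y => 1 + s * φ x y) (wsymm hφ s) P x with hw
  have hw0 : ∀ P x, 0 ≤ w P x := fun P x => Wt_nonneg hf0 P x
  -- the total weight
  have hA : av (w P0) ≤ 1 + ε := by
    have h2 := remove (ι := Fin n) hφ h1 hδ hC hs0 hs1 (g := fun _ => 1) (fun _ => zero_le_one)
      (fun _ => le_refl _) (card_sym2 n hn) ∅ P0 (disjoint_empty_right _) (by
        intro e he
        refine ⟨(mem_filter.mp he).2, ?_⟩
        induction e using Sym2.ind with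
        | _ a b => exact ⟨a, by simp, fun _ _ => rfl⟩)
    have e1 : (av fun x : Fin n → V => 1 * Wt (fun x y => 1 + s * φ x y) (wsymm hφ s) ∅ x) = 1 := by
      simp only [Wt_empty, mul_one]
      exact av_const 1
    rw [e1, union_empty] at h2
    have h3 := (abs_le.mp h2).2
    have h4 := hcardle P0
    have e2 : (av fun x : Fin n → V => 1 * Wt (fun x y => 1 + s * φ x y) (wsymm hφ s) P0 x) =
        av (w P0) := av_congr fun x => one_mul _
    rw [e2] at h3
    linarith
  -- one triple
  have hT : ∀ i j l : Fin n, ¬ (i = j ∨ i = l ∨ j = l) →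
      TW χ φ s - ε ≤ av fun x : Fin n → V => χ (x i) (x j) (x l) * w P0 x := by
    intro i j l hne
    push Not at hne
    obtain ⟨hij, hil, hjl⟩ := hne
    set P : Finset (Sym2 (Fin n)) := {s(i, j), s(i, l), s(j, l)} with hP
    have hPP : P ⊆ P0 := by
      intro e he
      rw [hP0, mem_filter]
      refine ⟨mem_univ _, ?_⟩
      simp only [hP, mem_insert, mem_singleton] at he
      rcases he with rfl | rfl | rfl
      · rw [Sym2.mk_isDiag_iff]; exact hij
      · rw [Sym2.mk_isDiag_iff]; exact hil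
      · rw [Sym2.mk_isDiag_iff]; exact hjl
    have h2 := remove (ι := Fin n) hφ h1 hδ hC hs0 hs1
      (g := fun x => χ (x i) (x j) (x l)) (fun x => hχ.nonneg _ _ _)
      (fun x => hχ.le_one _ _ _) (card_sym2 n hn) P (P0 \ P) sdiff_disjoint (by
        intro e he
        rw [mem_sdiff] at he
        refine ⟨(mem_filter.mp he.1).2, ?_⟩
        have hd := (mem_filter.mp he.1).2
        have hnot := he.2
        induction e using Sym2.ind with
        | _ a b =>
          rw [Sym2.mk_isDiag_iff] at hd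
          have hfree : ∀ c : Fin n, c ≠ i → c ≠ j → c ≠ l → ∀ (x : Fin n → V) (u : V),
              χ (Function.update x c u i) (Function.update x c u j) (Function.update x c u l) =
                χ (x i) (x j) (x l) := by
            intro c h1 h2 h3 x u
            rw [Function.update_of_ne h1.symm, Function.update_of_ne h2.symm,
              Function.update_of_ne h3.symm]
          by_cases ha : a = i ∨ a = j ∨ a = l
          · by_cases hb : b = i ∨ b = j ∨ b = l
            · exfalso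
              apply hnot
              simp only [hP, mem_insert, mem_singleton]
              rcases ha with rfl | rfl | rfl <;> rcases hb with rfl | rfl | rfl <;>
                first
                | exact absurd rfl hd
                | simp
            · push Not at hb
              exact ⟨b, by simp, hfree b hb.1 hb.2.1 hb.2.2⟩
          · push Not at ha
            exact ⟨a, by simp, hfree a ha.1 ha.2.1 ha.2.2⟩)
    rw [sdiff_union_of_subset hPP] at h2
    have h3 := (abs_le.mp h2).1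
    have h4 := hcardle (P0 \ P)
    have e1 : (av fun x : Fin n → V => χ (x i) (x j) (x l) *
        Wt (fun x y => 1 + s * φ x y) (wsymm hφ s) P x) = TW χ φ s := by
      have n1 : s(i, j) ∉ ({s(i, l), s(j, l)} : Finset (Sym2 (Fin n))) := by
        simp only [mem_insert, mem_singleton, Sym2.eq_iff]
        rintro ((⟨-, h⟩ | ⟨h, -⟩) | (⟨h, -⟩ | ⟨h, -⟩))
        · exact hjl h
        · exact hil h
        · exact hij h
        · exact hil h
      have n2 : s(i, l) ∉ ({s(j, l)} : Finset (Sym2 (Fin n))) := by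
        simp only [mem_singleton, Sym2.eq_iff]
        rintro (⟨h, -⟩ | ⟨h, -⟩)
        · exact hij h
        · exact hil h
      have e2 : ∀ x : Fin n → V, Wt (fun x y => 1 + s * φ x y) (wsymm hφ s) P x =
          (1 + s * φ (x i) (x j)) * (1 + s * φ (x i) (x l)) * (1 + s * φ (x j) (x l)) := by
        intro x
        rw [hP, Wt_insert n1, Wt_insert n2]
        have : Wt (fun x y => 1 + s * φ x y) (wsymm hφ s) {s(j, l)} x =
            1 + s * φ (x j) (x l) := by
          unfold Wt
          rw [prod_singleton, ev_mk]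
        rw [this]
        ring
      unfold TW
      rw [← av_three hij hil hjl (fun x y z =>
        (1 + s * φ x y) * (1 + s * φ x z) * (1 + s * φ y z) * χ x y z)]
      refine av_congr fun x => ?_
      rw [e2]
      ring
    rw [e1] at h3
    show TW χ φ s - ε ≤ av fun x : Fin n → V => χ (x i) (x j) (x l) *
      Wt (fun x y => 1 + s * φ x y) (wsymm hφ s) P0 x
    linarith
  -- sum over the triples
  have hsum : ∑ i : Fin n, ∑ j : Fin n, ∑ l : Fin n,
      (if i = j ∨ i = l ∨ j = l then 0 else (TW χ φ s - ε)) ≤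
      ∑ i : Fin n, ∑ j : Fin n, ∑ l : Fin n,
        av fun x : Fin n → V => χ (x i) (x j) (x l) * w P0 x := by
    refine sum_le_sum fun i _ => sum_le_sum fun j _ => sum_le_sum fun l _ => ?_
    split_ifs with h
    · exact av_nonneg fun x => mul_nonneg (hχ.nonneg _ _ _) (hw0 _ _)
    · exact hT i j l h
  rw [sum_ne3, Fintype.card_fin] at hsum
  have hup : ∑ i : Fin n, ∑ j : Fin n, ∑ l : Fin n,
        (av fun x : Fin n → V => χ (x i) (x j) (x l) * w P0 x) ≤ M * (1 + ε) := by
    have e1 : ∑ i : Fin n, ∑ j : Fin n, ∑ l : Fin n,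
        (av fun x : Fin n → V => χ (x i) (x j) (x l) * w P0 x) =
        av fun x : Fin n → V => (∑ i : Fin n, ∑ j : Fin n, ∑ l : Fin n, χ (x i) (x j) (x l)) *
          w P0 x := by
      have e3 : ∀ x : Fin n → V, (∑ i : Fin n, ∑ j : Fin n, ∑ l : Fin n, χ (x i) (x j) (x l)) *
          w P0 x = ∑ i : Fin n, ∑ j : Fin n, ∑ l : Fin n, χ (x i) (x j) (x l) * w P0 x := by
        intro x
        simp only [sum_mul]
      rw [av_congr e3, av_sum]
      refine sum_congr rfl fun i _ => ?_
      rw [av_sum]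
      refine sum_congr rfl fun j _ => ?_
      rw [av_sum]
    rw [e1]
    calc _ ≤ av fun x : Fin n → V => M * w P0 x :=
          av_mono fun x => mul_le_mul_of_nonneg_right (hBd x) (hw0 _ _)
      _ = M * av (w P0) := av_mul_left _ _
      _ ≤ M * (1 + ε) := mul_le_mul_of_nonneg_left hA hM
  exact hsum.trans hup

end main

end Pool.Agent.H70.QR.TEL
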