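import Pool.Agent.H70.RC.All

/-! Quasirandom functions and nearly extremal 3-graphs: statements. -/

set_option autoImplicit false
open Finset

namespace Pool.Agent.H70.QR

open Pool.Agent.H70.RC

/-- all sums of `φ` over boxes are small -/
def Cut {V : Type} [Fintype V] (φ : V → V → ℝ) (δ : ℝ) : Prop :=
  ∀ A B : Finset V, |∑ x ∈ A, ∑ y ∈ B, φ x y| ≤ δ * (Fintype.card V : ℝ) ^ 2

/-- density of the edges with weights `1 + s φ` on the pairs -/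
noncomputable def TW {V : Type} [Fintype V] (χ : V → V → V → ℝ) (φ : V → V → ℝ) (s : ℝ) : ℝ :=
  av fun x => av fun y => av fun z => (1 + s * φ x y) * (1 + s * φ x z) * (1 + s * φ y z) * χ x y z

/-- the linear form -/
noncomputable def LL {V : Type} [Fintype V] (χ : V → V → V → ℝ) (φ : V → V → ℝ) : ℝ :=
  av fun x => av fun y => φ x y * cod χ x y

/-- the quadratic form -/
noncomputable def QQ2 {V : Type} [Fintype V] (χ : V → V → V → ℝ) (φ : V → V → ℝ) : ℝ :=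
  av fun x => av fun y => av fun z => φ x y * φ x z * χ x y z

/-- TEL: random blow-ups weighted by the pairs. -/
def S_TEL : Prop :=
  ∀ (V : Type) [Fintype V] [Nonempty V] (χ : V → V → V → ℝ), Ker χ → ∀ (n : ℕ) (M : ℝ), 3 ≤ n → 0 ≤ M → Bd χ n M →
    ∀ φ : V → V → ℝ, (∀ x y, φ x y = φ y x) → (∀ x y, |φ x y| ≤ 1) → ∀ δ : ℝ, 0 ≤ δ → Cut φ δ →
    ∀ s : ℝ, 0 ≤ s → s ≤ 1 →
    (n : ℝ) * (n - 1) * (n - 2) * (TW χ φ s - n ^ 2 * 2 ^ (n ^ 2) * δ) ≤ M * (1 + n ^ 2 * 2 ^ (n ^ 2) * δ)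

/-- EXP: from the weighted densities to the linear and the quadratic form. -/
def S_EXP : Prop :=
  ∀ (V : Type) [Fintype V] [Nonempty V] (χ : V → V → V → ℝ), Ker χ → ∀ (a η : ℝ), 0 < η → η ≤ 1 / 2 →
    a - η ≤ dens χ → ∀ φ : V → V → ℝ, (∀ x y, φ x y = φ y x) → (∀ x y, |φ x y| ≤ 1) →
    (∀ s : ℝ, 0 ≤ s → s ≤ 1 → TW χ φ s ≤ a + η ∧ TW χ (fun x y => - φ x y) s ≤ a + η) →
    |LL χ φ| ≤ 3 * √η ∧ QQ2 χ φ ≤ η

/-- ASY: from symmetric functions to all functions. -/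
def S_ASY : Prop :=
  ∀ (V : Type) [Fintype V] [Nonempty V] (χ : V → V → V → ℝ), Ker χ → ∀ (η δ : ℝ), 0 < η → η ≤ 1 / 4 → 0 ≤ δ →
    (∀ φ : V → V → ℝ, (∀ x y, φ x y = φ y x) → (∀ x y, |φ x y| ≤ 1) → Cut φ (2 * δ) → QQ2 χ φ ≤ η) →
    ∀ φ : V → V → ℝ, (∀ x y, |φ x y| ≤ 1) → Cut φ δ → QQ2 χ φ ≤ 8 * √η

/-- WR: weak regularity lemma. -/
def S_WR : Prop :=
  ∀ δ : ℝ, 0 < δ → ∃ M : ℕ, ∀ (V : Type) [Fintype V] [Nonempty V] (D : V → V → ℝ), (∀ x y, D x y = D y x) →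
    (∀ x y, 0 ≤ D x y) → (∀ x y, D x y ≤ 1) →
    ∃ (c : V → Fin M) (d : Fin M → Fin M → ℝ), (∀ i j, 0 ≤ d i j) ∧ (∀ i j, d i j ≤ 1) ∧ (∀ i j, d i j = d j i) ∧
      Cut (fun x y => D x y - d (c x) (c y)) δ ∧
      (av fun x => av fun y => (D x y - d (c x) (c y)) * d (c x) (c y)) = 0

end Pool.Agent.H70.QR
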