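import Pool.Agent.H70.QR.Stm

/-! WR: the weak regularity lemma. -/

set_option autoImplicit false
set_option linter.unusedSectionVars false
open Finset

namespace Pool.Agent.H70.QR.WR

open Pool.Agent.H70.RC Pool.Agent.H70.QR

section dc

variable {V : Type} [Fintype V] {ι : Type} [Fintype ι] [DecidableEq ι]

/-- the average of `D` over the cells -/
noncomputable def dc (D : V → V → ℝ) (c : V → ι) (i j : ι) : ℝ :=
  (∑ x ∈ univ.filter (fun x => c x = i), ∑ y ∈ univ.filter (fun y => c y = j), D x y) /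
    ((univ.filter (fun x => c x = i)).card * (univ.filter (fun y => c y = j)).card)

variable {D : V → V → ℝ} {c : V → ι}

theorem sum_cell (D : V → V → ℝ) (c : V → ι) (i j : ι) :
    ∑ x ∈ univ.filter (fun x => c x = i), ∑ y ∈ univ.filter (fun y => c y = j), (D x y - dc D c i j) = 0 := by
  simp only [sum_sub_distrib, sum_const, nsmul_eq_mul]
  unfold dc
  set S := ∑ x ∈ univ.filter (fun x => c x = i), ∑ y ∈ univ.filter (fun y => c y = j), D x y with hS
  by_cases hi : (univ.filter (fun x => c x = i)) = ∅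
  · have : S = 0 := by rw [hS, hi, sum_empty]
    rw [this, hi]; simp
  · by_cases hj : (univ.filter (fun x => c x = j)) = ∅
    · have : S = 0 := by rw [hS, hj]; simp
      rw [this, hj]; simp
    · have h1 : ((univ.filter (fun x => c x = i)).card : ℝ) ≠ 0 := by
        exact_mod_cast (card_pos.mpr (nonempty_iff_ne_empty.mpr hi)).ne'
      have h2 : ((univ.filter (fun x => c x = j)).card : ℝ) ≠ 0 := by
        exact_mod_cast (card_pos.mpr (nonempty_iff_ne_empty.mpr hj)).ne'
      field_simp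
      ring

theorem orth (D : V → V → ℝ) (c : V → ι) (f : ι → ι → ℝ) :
    ∑ x, ∑ y, (D x y - dc D c (c x) (c y)) * f (c x) (c y) = 0 := by
  have h1 : ∑ x, ∑ y, (D x y - dc D c (c x) (c y)) * f (c x) (c y) =
      ∑ i, ∑ x ∈ univ.filter (fun x => c x = i), ∑ j, ∑ y ∈ univ.filter (fun y => c y = j),
        (D x y - dc D c (c x) (c y)) * f (c x) (c y) := by
    rw [sum_fiberwise]
    refine sum_congr rfl fun x _ => ?_
    rw [sum_fiberwise]
  rw [h1]
  refine sum_eq_zero fun i _ => ?_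
  rw [sum_comm]
  refine sum_eq_zero fun j _ => ?_
  have h2 : ∑ x ∈ univ.filter (fun x => c x = i), ∑ y ∈ univ.filter (fun y => c y = j),
        (D x y - dc D c (c x) (c y)) * f (c x) (c y) =
      (∑ x ∈ univ.filter (fun x => c x = i), ∑ y ∈ univ.filter (fun y => c y = j),
        (D x y - dc D c i j)) * f i j := by
    rw [sum_mul]
    refine sum_congr rfl fun x hx => ?_
    rw [sum_mul]
    refine sum_congr rfl fun y hy => ?_
    rw [(mem_filter.mp hx).2, (mem_filter.mp hy).2]
  rw [h2, sum_cell, zero_mul]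

theorem dc_nonneg (h0 : ∀ x y, 0 ≤ D x y) (i j : ι) : 0 ≤ dc D c i j :=
  div_nonneg (sum_nonneg fun x _ => sum_nonneg fun y _ => h0 x y) (by positivity)

theorem dc_le_one (h1 : ∀ x y, D x y ≤ 1) (i j : ι) : dc D c i j ≤ 1 := by
  unfold dc
  refine div_le_one_of_le₀ ?_ (by positivity)
  calc _ ≤ ∑ x ∈ univ.filter (fun x => c x = i), ∑ y ∈ univ.filter (fun y => c y = j), (1 : ℝ) :=
        sum_le_sum fun x _ => sum_le_sum fun y _ => h1 x y
    _ = _ := by simp

theorem dc_symm (hs : ∀ x y, D x y = D y x) (i j : ι) : dc D c i j = dc D c j i := by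
  unfold dc
  rw [sum_comm, mul_comm]
  congr 1
  exact sum_congr rfl fun x _ => sum_congr rfl fun y _ => hs _ _

theorem dc_emb {κ : Type} [Fintype κ] [DecidableEq κ] (e : ι → κ) (he : Function.Injective e)
    (D : V → V → ℝ) (c : V → ι) (i j : ι) : dc D (fun x => e (c x)) (e i) (e j) = dc D c i j := by
  unfold dc
  simp only [he.eq_iff]

/-- energy -/
noncomputable def En (D : V → V → ℝ) (c : V → ι) : ℝ := ∑ x, ∑ y, dc D c (c x) (c y) ^ 2

theorem En_le (h0 : ∀ x y, 0 ≤ D x y) (h1 : ∀ x y, D x y ≤ 1) (c : V → ι) :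
    En D c ≤ (Fintype.card V : ℝ) ^ 2 := by
  unfold En
  calc _ ≤ ∑ x : V, ∑ y : V, (1 : ℝ) := by
        refine sum_le_sum fun x _ => sum_le_sum fun y _ => ?_
        have h2 := dc_nonneg (c := c) h0 (c x) (c y)
        have h3 := dc_le_one (c := c) h1 (c x) (c y)
        nlinarith
    _ = _ := by simp [sq]

theorem step (h0 : ∀ x y, 0 ≤ D x y) (c : V → ι) {δ : ℝ} (hδ : 0 < δ)
    (hC : ¬ Cut (fun x y => D x y - dc D c (c x) (c y)) δ) :
    ∃ c' : V → ι × Bool × Bool, En D c + δ ^ 2 * (Fintype.card V : ℝ) ^ 2 ≤ En D c' := by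
  classical
  unfold Cut at hC
  push Not at hC
  obtain ⟨A, B, hAB⟩ := hC
  set N : ℝ := (Fintype.card V : ℝ) with hN
  let c' : V → ι × Bool × Bool := fun x => (c x, decide (x ∈ A), decide (x ∈ B))
  refine ⟨c', ?_⟩
  -- differences
  set g : V → V → ℝ := fun x y => dc D c' (c' x) (c' y) - dc D c (c x) (c y) with hg
  have hsq : ∑ x, ∑ y, g x y ^ 2 = En D c' - En D c := by
    have o1 := orth D c' (fun p q => dc D c p.1 q.1)
    have o2 := orth D c (fun i j => dc D c i j)
    have e1 : ∑ x, ∑ y, g x y ^ 2 - (En D c' - En D c) =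
        2 * ∑ x, ∑ y, (D x y - dc D c' (c' x) (c' y)) * dc D c (c' x).1 (c' y).1 -
        2 * ∑ x, ∑ y, (D x y - dc D c (c x) (c y)) * dc D c (c x) (c y) := by
      unfold En
      simp only [mul_sum, ← sum_sub_distrib]
      refine sum_congr rfl fun x _ => sum_congr rfl fun y _ => ?_
      show (dc D c' (c' x) (c' y) - dc D c (c x) (c y)) ^ 2 -
        (dc D c' (c' x) (c' y) ^ 2 - dc D c (c x) (c y) ^ 2) =
        2 * ((D x y - dc D c' (c' x) (c' y)) * dc D c (c x) (c y)) -
        2 * ((D x y - dc D c (c x) (c y)) * dc D c (c x) (c y))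
      ring
    rw [o1, o2] at e1
    linarith
  have hAB2 : ∑ x ∈ A, ∑ y ∈ B, g x y = ∑ x ∈ A, ∑ y ∈ B, (D x y - dc D c (c x) (c y)) := by
    have o1 := orth D c' (fun p q => if p.2.1 = true ∧ q.2.2 = true then 1 else 0)
    have e1 : ∑ x, ∑ y, (D x y - dc D c' (c' x) (c' y)) *
        (if (c' x).2.1 = true ∧ (c' y).2.2 = true then (1 : ℝ) else 0) =
        ∑ x ∈ A, ∑ y ∈ B, (D x y - dc D c' (c' x) (c' y)) := by
      rw [← sum_filter_add_sum_filter_not univ (fun x => x ∈ A)]
      have z1 : ∑ x ∈ univ.filter (fun x => ¬ x ∈ A), ∑ y, (D x y - dc D c' (c' x) (c' y)) *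
        (if (c' x).2.1 = true ∧ (c' y).2.2 = true then (1 : ℝ) else 0) = 0 := by
        refine sum_eq_zero fun x hx => sum_eq_zero fun y _ => ?_
        have : ¬ ((c' x).2.1 = true ∧ (c' y).2.2 = true) := by
          rintro ⟨h, -⟩
          exact (mem_filter.mp hx).2 (by simpa [c'] using h)
        rw [if_neg this, mul_zero]
      rw [z1, add_zero, filter_mem_eq_inter, univ_inter]
      refine sum_congr rfl fun x hx => ?_
      rw [← sum_filter_add_sum_filter_not univ (fun y => y ∈ B)]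
      have z2 : ∑ y ∈ univ.filter (fun y => ¬ y ∈ B), (D x y - dc D c' (c' x) (c' y)) *
        (if (c' x).2.1 = true ∧ (c' y).2.2 = true then (1 : ℝ) else 0) = 0 := by
        refine sum_eq_zero fun y hy => ?_
        have : ¬ ((c' x).2.1 = true ∧ (c' y).2.2 = true) := by
          rintro ⟨-, h⟩
          exact (mem_filter.mp hy).2 (by simpa [c'] using h)
        rw [if_neg this, mul_zero]
      rw [z2, add_zero, filter_mem_eq_inter, univ_inter]
      refine sum_congr rfl fun y hy => ?_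
      have : (c' x).2.1 = true ∧ (c' y).2.2 = true := ⟨by simpa [c'] using hx, by simpa [c'] using hy⟩
      rw [if_pos this, mul_one]
    rw [e1] at o1
    have e2 : ∑ x ∈ A, ∑ y ∈ B, g x y = ∑ x ∈ A, ∑ y ∈ B, (D x y - dc D c (c x) (c y)) -
        ∑ x ∈ A, ∑ y ∈ B, (D x y - dc D c' (c' x) (c' y)) := by
      simp only [← sum_sub_distrib]
      refine sum_congr rfl fun x _ => sum_congr rfl fun y _ => ?_
      show dc D c' (c' x) (c' y) - dc D c (c x) (c y) = _
      ring
    rw [e2, o1, sub_zero]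
  have hcs : (∑ x ∈ A, ∑ y ∈ B, g x y) ^ 2 ≤ N ^ 2 * ∑ x, ∑ y, g x y ^ 2 := by
    have h1 : (∑ p ∈ A ×ˢ B, g p.1 p.2) ^ 2 ≤ ((A ×ˢ B).card : ℝ) * ∑ p ∈ A ×ˢ B, g p.1 p.2 ^ 2 :=
      sq_sum_le_card_mul_sum_sq
    rw [sum_product, sum_product] at h1
    refine h1.trans ?_
    have h2 : ((A ×ˢ B).card : ℝ) ≤ N ^ 2 := by
      rw [card_product, sq, hN]
      push_cast
      exact mul_le_mul (by exact_mod_cast card_le_univ A) (by exact_mod_cast card_le_univ B)
        (by positivity) (by positivity)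
    refine mul_le_mul h2 ?_ (sum_nonneg fun x _ => sum_nonneg fun y _ => sq_nonneg _) (by positivity)
    calc ∑ x ∈ A, ∑ y ∈ B, g x y ^ 2 ≤ ∑ x ∈ A, ∑ y, g x y ^ 2 :=
          sum_le_sum fun x _ => sum_le_sum_of_subset_of_nonneg (subset_univ _)
            fun y _ _ => sq_nonneg _
      _ ≤ ∑ x, ∑ y, g x y ^ 2 := sum_le_sum_of_subset_of_nonneg (subset_univ _)
            fun x _ _ => sum_nonneg fun y _ => sq_nonneg _
  rw [hAB2, hsq] at hcs
  have hN0 : 0 ≤ N := by rw [hN]; positivity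
  have h5 : (δ * N ^ 2) ^ 2 ≤ (∑ x ∈ A, ∑ y ∈ B, (D x y - dc D c (c x) (c y))) ^ 2 := by
    rw [← sq_abs (∑ x ∈ A, ∑ y ∈ B, (D x y - dc D c (c x) (c y)))]
    exact pow_le_pow_left₀ (by positivity) hAB.le 2
  have hNpos : 0 < N := by
    rcases hN0.lt_or_eq with h | h
    · exact h
    · exfalso
      have hc : Fintype.card V = 0 := by
        have : (Fintype.card V : ℝ) = 0 := by rw [← hN, ← h]
        exact_mod_cast this
      have : IsEmpty V := Fintype.card_eq_zero_iff.mp hc
      have hA : A = ∅ := by ext x; exact (this.false x).elim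
      rw [hA, ← h] at hAB
      simp at hAB
  have h6 : (δ * N ^ 2) ^ 2 = N ^ 2 * (δ ^ 2 * N ^ 2) := by ring
  rw [h6] at h5
  have h7 := h5.trans hcs
  have h8 := le_of_mul_le_mul_left h7 (by positivity : (0 : ℝ) < N ^ 2)
  linarith

end dc

theorem iter {V : Type} [Fintype V] {D : V → V → ℝ} (h0 : ∀ x y, 0 ≤ D x y) {δ : ℝ} (hδ : 0 < δ)
    (k : ℕ) : ∃ (ι : Type) (_ : Fintype ι) (_ : DecidableEq ι) (c : V → ι),
      Fintype.card ι ≤ 4 ^ k ∧ (Cut (fun x y => D x y - dc D c (c x) (c y)) δ ∨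
        k * (δ ^ 2 * (Fintype.card V : ℝ) ^ 2) ≤ En D c) := by
  induction k with
  | zero =>
    refine ⟨Unit, inferInstance, inferInstance, fun _ => (), by simp, Or.inr ?_⟩
    have : 0 ≤ En D (fun _ : V => ()) := sum_nonneg fun x _ => sum_nonneg fun y _ => sq_nonneg _
    simpa using this
  | succ k ih =>
    obtain ⟨ι, i1, i2, c, hcard, h⟩ := ih
    by_cases hC : Cut (fun x y => D x y - dc D c (c x) (c y)) δ
    · refine ⟨ι, i1, i2, c, hcard.trans (Nat.pow_le_pow_right (by norm_num) (Nat.le_succ k)),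
        Or.inl hC⟩
    · obtain ⟨c', hc'⟩ := step h0 c hδ hC
      refine ⟨ι × Bool × Bool, inferInstance, inferInstance, c', ?_, Or.inr ?_⟩
      · rw [Fintype.card_prod, Fintype.card_prod, Fintype.card_bool, pow_succ]
        omega
      · rcases h with h | h
        · exact absurd h hC
        · push_cast
          linarith

theorem wr : S_WR := by
  intro δ hδ
  set k : ℕ := ⌈1 / δ ^ 2⌉₊ + 1 with hk
  refine ⟨4 ^ k, ?_⟩
  intro V _ _ D hs h0 h1
  obtain ⟨ι, i1, i2, c, hcard, h⟩ := iter (V := V) h0 hδ k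
  have hNpos : (0 : ℝ) < Fintype.card V := by exact_mod_cast Fintype.card_pos
  have hC : Cut (fun x y => D x y - dc D c (c x) (c y)) δ := by
    rcases h with h | h
    · exact h
    · exfalso
      have h2 := h.trans (En_le h0 h1 c)
      have h3 : (1 : ℝ) / δ ^ 2 < k := by
        have := Nat.le_ceil (1 / δ ^ 2)
        rw [hk]; push_cast; linarith
      rw [div_lt_iff₀ (by positivity)] at h3
      have h4 : (0 : ℝ) < (Fintype.card V : ℝ) ^ 2 := by positivity
      nlinarith
  obtain ⟨e⟩ : Nonempty (ι ↪ Fin (4 ^ k)) :=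
    Function.Embedding.nonempty_of_card_le (by rw [Fintype.card_fin]; exact hcard)
  refine ⟨fun x => e (c x), dc D (fun x => e (c x)), fun i j => dc_nonneg h0 i j,
    fun i j => dc_le_one h1 i j, fun i j => dc_symm hs i j, ?_, ?_⟩
  · simpa only [dc_emb e e.injective D c] using hC
  · have h2 := orth D (fun x => e (c x)) (dc D (fun x => e (c x)))
    unfold av
    simp only [← sum_div]
    rw [h2]
    simp

end Pool.Agent.H70.QR.WR
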